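import Pool.Agent.Work.MonodromyK.Defs

/-!
# Basic lemmas on `mon`, `lau`, `TI` and maximal generalised eigenspaces
-/

set_option autoImplicit false
set_option linter.unusedSectionVars false

namespace Pool.Agent.MonoK

open MvPolynomial Pool.Agent.Mono

section

variable {R : Type} [CommRing R] {ι κ τ : Type} [Fintype ι] [Fintype κ]

/-- the value of `x^m` under a homomorphism to a field -/
theorem map_mon {L : Type} [Field L] (φ : PR R ι →+* L)
    (h : ∀ i, φ (X (Sum.inl i)) * φ (X (Sum.inr i)) = 1) (m : ι → ℤ) :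
    φ (mon R m) = ∏ i, φ (X (Sum.inl i)) ^ m i := by
  rw [mon, map_prod]
  refine Finset.prod_congr rfl fun i _ => ?_
  rw [map_mul, map_pow, map_pow]
  have h1 : φ (X (Sum.inr i)) = (φ (X (Sum.inl i)))⁻¹ :=
    eq_inv_of_mul_eq_one_right (h i)
  have h0 : φ (X (Sum.inl i)) ≠ 0 := left_ne_zero_of_mul_eq_one (h i)
  rw [h1]
  obtain ⟨n, hn | hn⟩ := (m i).eq_nat_or_neg
  · rw [hn]; simp
  · rw [hn]; simp

theorem map_lau {L : Type} [Field L] (φ : PR R ι →+* L)
    (h : ∀ i, φ (X (Sum.inl i)) * φ (X (Sum.inr i)) = 1) (w : κ → ι → ℤ) (c : κ → R) :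
    φ (lau w c) = ∑ v, φ (C (c v)) * ∏ i, φ (X (Sum.inl i)) ^ w v i := by
  rw [lau, map_sum]
  exact Finset.sum_congr rfl fun v _ => by rw [map_mul, map_mon φ h]

theorem mem_TI_inv (f : τ → PR R ι) (i : ι) :
    (X (Sum.inl i) * X (Sum.inr i) - 1 : PR R ι) ∈ TI f :=
  Ideal.subset_span (Or.inl ⟨i, rfl⟩)

theorem mem_TI (f : τ → PR R ι) (j : τ) : f j ∈ TI f :=
  Ideal.subset_span (Or.inr ⟨j, rfl⟩)

theorem TI_sup (f : τ → PR R ι) (g : PR R ι) :
    TI f ⊔ Ideal.span {g} = TI (Sum.elim f fun _ : Unit => g) := by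
  rw [TI, TI, ← Ideal.span_union, Set.union_assoc, Set.Sum.elim_range]
  congr 2
  simp

theorem TI_crit {d : ℕ} (w : κ → Fin (d + 1) → ℤ) (c : κ → R) :
    TI (pol w c) ⊔ Ideal.span {lau w (th w (Fin.last d) c)} = TI (crit w c) := by
  rw [TI, TI, ← Ideal.span_union, Set.union_assoc]
  congr 2
  ext x
  constructor
  · rintro (⟨j, rfl⟩ | h)
    · exact ⟨j.castSucc, rfl⟩
    · exact ⟨Fin.last d, h.symm⟩
  · rintro ⟨i, rfl⟩
    refine Fin.lastCases ?_ (fun j => ?_) i
    · exact Or.inr rfl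
    · exact Or.inl ⟨j, rfl⟩

end

section

variable {k : Type} [Field k]

theorem finrank_maxGen_congr {M N : Type} [AddCommGroup M] [Module k M] [AddCommGroup N]
    [Module k N] (e : M ≃ₗ[k] N) (f : Module.End k M) (g : Module.End k N)
    (h : ∀ x, e (f x) = g (e x)) :
    Module.finrank k (f.maxGenEigenspace 0) = Module.finrank k (g.maxGenEigenspace 0) := by
  have hpow : ∀ (n : ℕ) (x : M), e ((f ^ n) x) = (g ^ n) (e x) := by
    intro n
    induction n with
    | zero => intro x; simp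
    | succ n ih => intro x; rw [pow_succ', pow_succ', Module.End.mul_apply, h, ih,
        Module.End.mul_apply]
  have hmap : (f.maxGenEigenspace 0).map (e : M →ₗ[k] N) = g.maxGenEigenspace 0 := by
    ext y
    simp only [Submodule.mem_map, Module.End.mem_maxGenEigenspace, zero_smul, sub_zero]
    constructor
    · rintro ⟨x, ⟨n, hn⟩, rfl⟩
      exact ⟨n, by rw [LinearEquiv.coe_coe, ← hpow, hn, map_zero]⟩
    · rintro ⟨n, hn⟩
      refine ⟨e.symm y, ⟨n, ?_⟩, by simp⟩
      apply e.injective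
      rw [hpow, e.apply_symm_apply, hn, map_zero]
  rw [← hmap]
  exact (e.submoduleMap (f.maxGenEigenspace 0)).finrank_eq

/-- iterated quotients -/
theorem finrank_maxGen_quot {P : Type} [CommRing P] [Algebra k P] (I : Ideal P) (a g : P) :
    Module.finrank k (Module.End.maxGenEigenspace (LinearMap.mulLeft k
      (Ideal.Quotient.mk (Ideal.span {Ideal.Quotient.mk I a}) (Ideal.Quotient.mk I g))) 0) =
    Module.finrank k (Module.End.maxGenEigenspace (LinearMap.mulLeft k
      (Ideal.Quotient.mk (I ⊔ Ideal.span {a}) g)) 0) := by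
  have h1 : Ideal.span {Ideal.Quotient.mk I a} = (Ideal.span {a}).map (Ideal.Quotient.mk I) := by
    rw [Ideal.map_span, Set.image_singleton]
  let e := (Ideal.quotientEquivAlgOfEq k h1).trans (DoubleQuot.quotQuotEquivQuotSupₐ k I
    (Ideal.span {a}))
  refine finrank_maxGen_congr e.toLinearEquiv _ _ fun x => ?_
  change e (_ * x) = _ * e x
  rw [map_mul]
  rfl

theorem finrank_quot_quot {P : Type} [CommRing P] [Algebra k P] (I : Ideal P) (a : P) :
    Module.finrank k ((P ⧸ I) ⧸ Ideal.span {Ideal.Quotient.mk I a}) =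
    Module.finrank k (P ⧸ (I ⊔ Ideal.span {a})) := by
  have h1 : Ideal.span {Ideal.Quotient.mk I a} = (Ideal.span {a}).map (Ideal.Quotient.mk I) := by
    rw [Ideal.map_span, Set.image_singleton]
  let e := (Ideal.quotientEquivAlgOfEq k h1).trans (DoubleQuot.quotQuotEquivQuotSupₐ k I
    (Ideal.span {a}))
  exact e.toLinearEquiv.finrank_eq

end

end Pool.Agent.MonoK
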