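import Pool.Agent.Work.MonodromyK.Interface
import Pool.Agent.Work.MonodromyK.Lau

/-!
# Assembly: Teissier's identity for slices
-/

set_option autoImplicit false

namespace Pool.Agent.MonoK

open MvPolynomial Pool.Agent.Mono

/-- the derivative of a monomial -/
theorem deriv_mon {k L ι : Type} [Field k] [Field L] [Algebra k L] (D : Derivation k L L)
    (ξ : ι → L) (hξ : ∀ i, ξ i ≠ 0) (m : ι → ℤ) (s : Finset ι) :
    D (∏ i ∈ s, ξ i ^ m i) = (∏ i ∈ s, ξ i ^ m i) * ∑ i ∈ s, (m i : L) * (D (ξ i) / ξ i) := by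
  classical
  induction s using Finset.induction_on with
  | empty => simp
  | insert a s ha ih =>
    rw [Finset.prod_insert ha, Finset.sum_insert ha, Derivation.leibniz, ih,
      Derivation.leibniz_zpow]
    have h1 : ξ a ^ (m a - 1) = ξ a ^ m a / ξ a := by rw [zpow_sub_one₀ (hξ a), div_eq_mul_inv]
    rw [h1]
    simp only [smul_eq_mul, zsmul_eq_mul]
    field_simp
    ring

/-- the chain rule for `g = ∑ c_v x^{w_v}` -/
theorem deriv_lau {k L ι κ : Type} [Field k] [Field L] [Algebra k L] [Fintype ι] [Fintype κ]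
    (D : Derivation k L L) (φ : PR k ι →ₐ[k] L)
    (h : ∀ i, φ (X (Sum.inl i)) * φ (X (Sum.inr i)) = 1) (w : κ → ι → ℤ) (c : κ → k) :
    D (φ (lau w c)) =
      ∑ i, D (φ (X (Sum.inl i))) / φ (X (Sum.inl i)) * φ (lau w (th w i c)) := by
  have hξ : ∀ i, φ (X (Sum.inl i)) ≠ 0 := fun i => left_ne_zero_of_mul_eq_one (h i)
  have hC : ∀ a : k, φ (C a) = algebraMap k L a := fun a => φ.commutes a
  have hl : ∀ c : κ → k, φ (lau w c) = ∑ v, algebraMap k L (c v) *
      ∏ i, φ (X (Sum.inl i)) ^ w v i := by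
    intro c
    have := map_lau (φ : PR k ι →+* L) h w c
    simpa [hC] using this
  rw [hl, map_sum]
  have h1 : ∀ v, D (algebraMap k L (c v) * ∏ i, φ (X (Sum.inl i)) ^ w v i) =
      ∑ i, D (φ (X (Sum.inl i))) / φ (X (Sum.inl i)) *
        (algebraMap k L (th w i c v) * ∏ i, φ (X (Sum.inl i)) ^ w v i) := by
    intro v
    rw [← Algebra.smul_def, Derivation.map_smul, deriv_mon D _ hξ, Algebra.smul_def,
      Finset.mul_sum, Finset.mul_sum]
    refine Finset.sum_congr rfl fun i _ => ?_
    simp only [th, map_mul, map_intCast]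
    ring
  simp only [h1, hl]
  rw [Finset.sum_comm]
  exact Finset.sum_congr rfl fun i _ => by rw [Finset.mul_sum]

theorem slc_th {k κ : Type} [Field k] [Fintype κ] {d : ℕ} (w : κ → Fin (d + 1) → ℤ) (c : κ → k)
    (s : k) (j : Fin d) : slc w (th w j.castSucc c) s = th (sl w) j (slc w c s) := by
  funext v
  simp only [slc, th, sl]
  ring

theorem BID_of (hFREE : Stmt_FREEB) (hTEIS : Stmt_TEIS) (hLEN : Stmt_LEN) (hISO : Stmt_ISO) :
    Stmt_BID := by
  classical
  intro k κ _ _ _ _ d w c hI hN hG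
  let alg : Algebra (Polynomial k) (PR k (Fin (d + 1)) ⧸ TI (pol w c)) :=
    (Polynomial.aeval (Ideal.Quotient.mk (TI (pol w c)) (lau w c))).toRingHom.toAlgebra
  obtain ⟨hfin, hfree⟩ := hFREE k κ d w c hI hN hG
  set B := PR k (Fin (d + 1)) ⧸ TI (pol w c) with hB
  have hX : algebraMap (Polynomial k) B Polynomial.X = Ideal.Quotient.mk (TI (pol w c)) (lau w c) :=
    Polynomial.aeval_X _
  have hC : ∀ a : k, algebraMap (Polynomial k) B (Polynomial.C a) = algebraMap k B a := fun a =>
    Polynomial.aeval_C _ a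
  have tower : IsScalarTower k (Polynomial k) B := IsScalarTower.of_algebraMap_eq fun a =>
    (hC a).symm
  set s : B := Ideal.Quotient.mk (TI (pol w c)) (X (Sum.inl (Fin.last d))) with hs
  set ϑ : B := Ideal.Quotient.mk (TI (pol w c)) (lau w (th w (Fin.last d) c)) with hϑ
  have hinv : ∀ i, Ideal.Quotient.mk (TI (pol w c)) (X (Sum.inl i)) *
      Ideal.Quotient.mk (TI (pol w c)) (X (Sum.inr i)) = 1 := by
    intro i
    rw [← map_mul, ← sub_eq_zero, ← map_one (Ideal.Quotient.mk (TI (pol w c))), ← map_sub]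
    exact Ideal.Quotient.eq_zero_iff_mem.2 (mem_TI_inv _ i)
  have hsu : IsUnit s := IsUnit.of_mul_eq_one _ (hinv (Fin.last d))
  -- the differential relation
  have hder : ∀ (L : Type) [Field L] [Algebra k L] [Algebra (Polynomial k) L]
      [IsScalarTower k (Polynomial k) L] (D : Derivation k L L),
      D (algebraMap (Polynomial k) L Polynomial.X) = 1 →
        ∀ p : B →ₐ[Polynomial k] L, p ϑ * D (p s) = p s := by
    intro L _ _ _ _ D hD p
    let φ : PR k (Fin (d + 1)) →ₐ[k] L :=
      (p.restrictScalars k).comp (Ideal.Quotient.mkₐ k (TI (pol w c)))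
    have hφ : ∀ x, φ x = p (Ideal.Quotient.mk (TI (pol w c)) x) := fun x => rfl
    have hφi : ∀ i, φ (X (Sum.inl i)) * φ (X (Sum.inr i)) = 1 := by
      intro i
      rw [hφ, hφ, ← map_mul, hinv, map_one]
    have h1 := deriv_lau D φ hφi w c
    rw [hφ, ← hX, p.commutes, hD, Fin.sum_univ_castSucc] at h1
    have h2 : ∀ j : Fin d, φ (lau w (th w j.castSucc c)) = 0 := by
      intro j
      rw [hφ, Ideal.Quotient.eq_zero_iff_mem.2
        (show lau w (th w j.castSucc c) ∈ TI (pol w c) from mem_TI (pol w c) j), map_zero]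
    simp only [h2, mul_zero, Finset.sum_const_zero, zero_add] at h1
    have h0 : p s ≠ 0 := by
      rw [← hφ]; exact left_ne_zero_of_mul_eq_one (hφi _)
    have h3 : p ϑ = φ (lau w (th w (Fin.last d) c)) := rfl
    have h4 : p s = φ (X (Sum.inl (Fin.last d))) := rfl
    rw [h3, h4]
    rw [h4] at h0
    field_simp at h1
    rw [mul_comm]
    exact h1.symm
  obtain ⟨T, hT⟩ := hTEIS k B s ϑ hsu hder
  -- the norms do not vanish
  set Nr := Algebra.norm (Polynomial k) (S := B) with hNr
  have hne : ∀ T' : Finset k, T ⊆ T' → Nr ϑ * ∏ c ∈ T', Nr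
      (s - algebraMap (Polynomial k) B (Polynomial.C c)) ≠ 0 := by
    intro T' hT' h0
    have h1 := hT T' hT'
    rw [h0, Polynomial.rootMultiplicity_zero] at h1
    have : Subsingleton B := (Module.finrank_eq_zero_iff_of_free (Polynomial k) B).1 h1.symm
    have h2 : ∀ b : B, Nr b = 1 := fun b => by
      rw [Subsingleton.elim b 1, map_one]
    simp only [h2, Finset.prod_const_one, mul_one] at h0
    exact one_ne_zero h0
  have hneϑ : Nr ϑ ≠ 0 := left_ne_zero_of_mul (hne T subset_rfl)
  have hnes : ∀ c, Nr (s - algebraMap (Polynomial k) B (Polynomial.C c)) ≠ 0 := by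
    intro c
    have h1 := right_ne_zero_of_mul (hne (insert c T) (Finset.subset_insert c T))
    exact Finset.prod_ne_zero_iff.1 h1 c (Finset.mem_insert_self c T)
  have hneX : Nr (algebraMap (Polynomial k) B Polynomial.X) ≠ 0 := by
    rw [hNr, Algebra.norm_algebraMap]
    exact pow_ne_zero _ Polynomial.X_ne_zero
  -- the three quotients
  have q1 : mu w c = (Nr ϑ).rootMultiplicity 0 := by
    rw [← (hLEN k B ϑ hneϑ).2.2, hX]
    rw [finrank_maxGen_quot, TI_crit]
    rfl
  have q2 : ∀ t : k, t ≠ 0 → mu (sl w) (slc w c t) =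
      (Nr (s - algebraMap (Polynomial k) B (Polynomial.C t))).rootMultiplicity 0 := by
    intro t ht
    rw [← (hLEN k B _ (hnes t)).2.2, hX, hC]
    have h1 : s - algebraMap k B t =
        Ideal.Quotient.mk (TI (pol w c)) (X (Sum.inl (Fin.last d)) - C t) := by
      rw [map_sub]; rfl
    rw [h1, finrank_maxGen_quot]
    have h2 : (fun j => lau (sl w) (slc w (th w j.castSucc c) t)) = crit (sl w) (slc w c t) := by
      funext j
      rw [slc_th]; rfl
    have h3 : ∃ e : (PR k (Fin (d + 1)) ⧸ (TI (pol w c) ⊔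
        Ideal.span {X (Sum.inl (Fin.last d)) - C t})) ≃ₐ[k]
        (PR k (Fin d) ⧸ TI (crit (sl w) (slc w c t))),
        ∀ c : κ → k, e (Ideal.Quotient.mk _ (lau w c)) =
          Ideal.Quotient.mk _ (lau (sl w) (slc w c t)) := by
      obtain ⟨e, he⟩ := hISO k κ (Fin d) d w (fun j => th w j.castSucc c) t ht
      refine ⟨e.trans (Ideal.quotientEquivAlgOfEq k (congrArg TI h2)), fun c => ?_⟩
      exact congrArg (Ideal.quotientEquivAlgOfEq k (congrArg TI h2)) (he c)
    obtain ⟨e, he⟩ := h3
    refine (finrank_maxGen_congr e.toLinearEquiv _ _ fun x => ?_).symm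
    exact (map_mul e _ _).trans (congrArg (· * e x) (he c))
  have q3 : Nn w c = Module.finrank (Polynomial k) B := by
    have h1 := (hLEN k B _ hneX).2.1
    rw [Algebra.norm_algebraMap, Polynomial.natDegree_X_pow, hX, finrank_quot_quot,
      TI_sup] at h1
    rw [← h1]
    rfl
  -- conclusion
  have hunit : (Nr (s - algebraMap (Polynomial k) B (Polynomial.C 0))).rootMultiplicity 0 = 0 := by
    rw [Polynomial.C_0, map_zero, sub_zero]
    have h1 : IsUnit (Nr s) := hsu.map Nr
    obtain ⟨r, hr, hr'⟩ := Polynomial.isUnit_iff.1 h1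
    rw [← hr', Polynomial.rootMultiplicity_C]
  have hsum : ∀ T' : Finset k, T ⊆ T' → (Nr ϑ).rootMultiplicity 0 +
      ∑ t ∈ T', (Nr (s - algebraMap (Polynomial k) B (Polynomial.C t))).rootMultiplicity 0 =
        Module.finrank (Polynomial k) B := by
    intro T' hT'
    rw [← hT T' hT', Polynomial.rootMultiplicity_mul (hne T' hT')]
    congr 1
    have : ∀ U : Finset k, ∑ t ∈ U, (Nr (s - algebraMap (Polynomial k) B
        (Polynomial.C t))).rootMultiplicity 0 = (∏ t ∈ U, Nr (s - algebraMap (Polynomial k) B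
          (Polynomial.C t))).rootMultiplicity 0 := by
      intro U
      induction U using Finset.induction_on with
      | empty => rw [Finset.sum_empty, Finset.prod_empty, ← Polynomial.C_1,
          Polynomial.rootMultiplicity_C]
      | insert a U ha ih =>
        rw [Finset.sum_insert ha, Finset.prod_insert ha, Polynomial.rootMultiplicity_mul, ih]
        exact mul_ne_zero (hnes a) (Finset.prod_ne_zero_iff.2 fun c _ => hnes c)
    exact this T'
  refine ⟨T.erase 0, Finset.notMem_erase 0 T, ?_, ?_⟩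
  · intro t ht htT
    have htT' : t ∉ T := fun h => htT (Finset.mem_erase.2 ⟨ht, h⟩)
    rw [q2 t ht]
    have h1 := hsum T subset_rfl
    have h2 := hsum (insert t T) (Finset.subset_insert t T)
    rw [Finset.sum_insert htT'] at h2
    omega
  · rw [q1, q3, ← hsum T subset_rfl]
    congr 1
    have h1 : ∑ t ∈ T.erase 0, mu (sl w) (slc w c t) = ∑ t ∈ T.erase 0,
        (Nr (s - algebraMap (Polynomial k) B (Polynomial.C t))).rootMultiplicity 0 :=
      Finset.sum_congr rfl fun t ht => q2 t (Finset.ne_of_mem_erase ht)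
    rw [h1]
    by_cases h0 : (0 : k) ∈ T
    · rw [← Finset.add_sum_erase T _ h0, hunit, zero_add]
    · rw [Finset.erase_eq_of_notMem h0]

end Pool.Agent.MonoK
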