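import Pool.Agent.Work.MonodromyK.Interface

/-!
# Assembly: the count
-/

set_option autoImplicit false

namespace Pool.Agent.MonoK

open MvPolynomial Pool.Agent.Mono

theorem COUNT_of (hVF : Stmt_VF) (hBC : Stmt_BC) (hEPS : Stmt_EPS) (hGND : Stmt_GND)
    (hFINN : Stmt_FINN) (hSIMP : Stmt_SIMP) (hPTS1 : Stmt_PTS1) (hPTS2 : Stmt_PTS2)
    (hRES : Stmt_RES) : Stmt_COUNT := by
  classical
  intro κ _ d w a h hw hI hG ha hh
  obtain ⟨F⟩ := hVF
  have hne : Nonempty κ := by
    by_contra hcon
    rw [not_nonempty_iff] at hcon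
    obtain ⟨n, -, hn⟩ := hI
    have h1 := hn (fun _ => 1) (fun v => (hcon.false v).elim)
    exact one_ne_zero (congrFun h1 (Fin.last d))
  set b : κ → F.K := fun v => F.eps (h v) with hb
  have hbi : AlgebraicIndependent ℚ b := hEPS F κ h hh
  have hND := (hGND F.K (Fin (d + 1)) κ w b hbi hI hne).1
  have hjac : ∀ u ∈ Pt w b, (Jm w b u).det ≠ 0 := by
    intro u hu
    obtain ⟨C, hC, hcell, hCy⟩ := hPTS1 F κ d w h hG hI hh u hu
    obtain ⟨y, hy⟩ := hcell
    obtain ⟨q, hq, hqR⟩ := hCy y hy
    obtain ⟨q', h1, h2, h3, h4⟩ := hPTS2 F κ d w h C y hG hh hC hy _ hqR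
    have h5 : q = q' := h4 q (fun _ => rfl) (by
      have : (fun i => F.eps (y i) * (q i : F.K)) = u := funext fun i => (hq i).symm
      rw [this]; exact hu)
    have h6 : (fun i => F.eps (y i) * (q' i : F.K)) = u := by
      rw [← h5]; exact funext fun i => (hq i).symm
    rwa [h6] at h3
  rw [hBC ℂ F.K κ (d + 1) w a b ha hbi, hSIMP F.K κ d w b (hFINN F.K κ d w b hI hND hG) hjac]
  -- the cells
  set cells : Finset (Finset κ) :=
    (Finset.univ : Finset (Finset κ)).filter (fun C => C.card = d + 1 + 1 ∧ IsCell w h C)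
    with hcells
  have hmem : ∀ C ∈ cells, C.card = d + 2 ∧ IsCell w h C := fun C hC => by
    simpa [hcells] using hC
  choose! Y hY using fun (C : Finset κ) (hC : C ∈ cells) => (hmem C hC).2
  choose! q hq using fun (C : Finset κ) (hC : C ∈ cells) (q₀ : Fin (d + 1) → ℂ)
    (hq₀ : q₀ ∈ Rs w C) => hPTS2 F κ d w h C (Y C) hG hh (hmem C hC).1 (hY C hC) q₀ hq₀
  -- the bijection
  let f : (Σ C : cells, Rs w (C : Finset κ)) → Pt w b := fun p =>
    ⟨fun i => F.eps (Y p.1 i) * (q p.1 p.2 i : F.K), (hq p.1 p.1.2 p.2 p.2.2).2.1⟩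
  -- the minimal set is determined by the point
  have hkey : ∀ (C : Finset κ) (y : Fin (d + 1) → ℝ),
      (∀ v, v ∈ C ↔ ∀ v', ∑ i, y i * w v i + h v ≤ ∑ i, y i * w v' i + h v') →
      ∀ (q : Fin (d + 1) → F.O), (∀ i, F.st (q i) ≠ 0) → ∀ v, v ∈ C ↔ ∀ v',
        b v' * ∏ i, (F.eps (y i) * (q i : F.K)) ^ w v' i ∈
          {t : F.K | ∃ r ∈ F.O, t = r * (b v * ∏ i, (F.eps (y i) * (q i : F.K)) ^ w v i)} := by
    intro C y hy q hq0 v
    rw [hy v]
    have heps : ∀ r, F.eps r ≠ 0 := by
      intro r hr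
      have := F.eps_add r (-r)
      rw [add_neg_cancel, F.eps_zero, hr, zero_mul] at this
      exact one_ne_zero this
    have hepsz : ∀ (r : ℝ) (n : ℤ), F.eps r ^ n = F.eps (r * n) := by
      have hnat : ∀ (r : ℝ) (n : ℕ), F.eps r ^ n = F.eps (r * n) := by
        intro r n
        induction n with
        | zero => simp [F.eps_zero]
        | succ n ih => rw [pow_succ, ih, ← F.eps_add]; congr 1; push_cast; ring
      have hneg : ∀ r, (F.eps r)⁻¹ = F.eps (-r) := fun r =>
        inv_eq_of_mul_eq_one_right (by rw [← F.eps_add, add_neg_cancel, F.eps_zero])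
      intro r n
      obtain ⟨m, rfl | rfl⟩ := n.eq_nat_or_neg
      · rw [zpow_natCast, hnat]; simp
      · rw [zpow_neg, zpow_natCast, hnat, hneg]; congr 1; push_cast; ring
    have hprod : ∀ (s : Finset (Fin (d + 1))) (g : Fin (d + 1) → ℝ),
        ∏ i ∈ s, F.eps (g i) = F.eps (∑ i ∈ s, g i) := by
      intro s g
      induction s using Finset.induction_on with
      | empty => simp [F.eps_zero]
      | insert a s ha ih => rw [Finset.prod_insert ha, Finset.sum_insert ha, F.eps_add, ih]
    have hqu : ∀ i, IsUnit (q i) := by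
      intro i
      have h1 := hq0 i
      rw [Ne, F.st_zero] at h1
      by_contra h2
      exact h1 (ValuationSubring.coe_mem_nonunits_iff.2 (by simpa [mem_nonunits_iff] using h2))
    have hmon : ∀ v, b v * ∏ i, (F.eps (y i) * (q i : F.K)) ^ w v i =
        F.eps (∑ i, y i * w v i + h v) * ∏ i, (q i : F.K) ^ w v i := by
      intro v
      simp only [mul_zpow, Finset.prod_mul_distrib, hepsz, hprod, hb]
      rw [← mul_assoc, ← F.eps_add, add_comm (h v)]
    have hQ : ∀ v, ∃ g : F.Oˣ, (∏ i, (q i : F.K) ^ w v i) = ((g : F.O) : F.K) := by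
      intro v
      choose U hU using hqu
      refine ⟨∏ i, U i ^ w v i, ?_⟩
      have h1 : ∀ (g : F.Oˣ) (n : ℤ), (((g ^ n : F.Oˣ) : F.O) : F.K) = (((g : F.O)) : F.K) ^ n := by
        intro g n
        have h2 := map_zpow (Units.map (F.O.subtype : F.O →* F.K)) g n
        have h3 := congrArg Units.val h2
        rw [Units.val_zpow_eq_zpow_val] at h3
        exact h3
      have h2 : ∀ s : Finset (Fin (d + 1)), ((((∏ i ∈ s, U i ^ w v i : F.Oˣ)) : F.O) : F.K) =
          ∏ i ∈ s, ((((U i : F.O)) : F.K)) ^ w v i := by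
        intro s
        induction s using Finset.induction_on with
        | empty => simp
        | insert a s ha ih =>
          rw [Finset.prod_insert ha, Finset.prod_insert ha, ← ih, ← h1]
          simp
      rw [h2]
      simp only [hU]
    constructor
    · intro hv v'
      obtain ⟨g, hg⟩ := hQ v
      obtain ⟨g', hg'⟩ := hQ v'
      have hr : 0 ≤ (∑ i, y i * w v' i + h v') - (∑ i, y i * w v i + h v) := by
        linarith [hv v']
      have hmemO : F.eps ((∑ i, y i * w v' i + h v') - (∑ i, y i * w v i + h v)) ∈ F.O := by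
        rcases hr.eq_or_lt with h0 | h0
        · rw [← h0, F.eps_zero]; exact F.O.one_mem
        · exact ValuationSubring.nonunits_subset (F.eps_pos _ h0)
      refine ⟨F.eps ((∑ i, y i * w v' i + h v') - (∑ i, y i * w v i + h v)) *
        (((g' * g⁻¹ : F.Oˣ) : F.O) : F.K), F.O.mul_mem _ _ hmemO (SetLike.coe_mem _), ?_⟩
      rw [hmon, hmon, hg, hg']
      have h1 : (((g' * g⁻¹ : F.Oˣ) : F.O) : F.K) * ((g : F.O) : F.K) = ((g' : F.O) : F.K) := by
        norm_cast
        simp
      calc F.eps (∑ i, y i * w v' i + h v') * ((g' : F.O) : F.K)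
          = F.eps (((∑ i, y i * w v' i + h v') - (∑ i, y i * w v i + h v)) +
              (∑ i, y i * w v i + h v)) * ((g' : F.O) : F.K) := by rw [sub_add_cancel]
        _ = _ := by rw [F.eps_add, ← h1]; ring
    · intro hv v'
      by_contra hlt
      push Not at hlt
      obtain ⟨r, hr, hrr⟩ := hv v'
      obtain ⟨g, hg⟩ := hQ v
      obtain ⟨g', hg'⟩ := hQ v'
      rw [hmon, hmon, hg, hg'] at hrr
      have hpos := F.eps_pos ((∑ i, y i * w v i + h v) - (∑ i, y i * w v' i + h v')) (by linarith)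
      have h1 : ((g' : F.O) : F.K) = r * ((g : F.O) : F.K) *
          F.eps ((∑ i, y i * w v i + h v) - (∑ i, y i * w v' i + h v')) := by
        have h2 := F.eps_add (∑ i, y i * w v' i + h v')
          ((∑ i, y i * w v i + h v) - (∑ i, y i * w v' i + h v'))
        rw [add_sub_cancel] at h2
        rw [h2] at hrr
        apply mul_left_cancel₀ (heps (∑ i, y i * w v' i + h v'))
        rw [hrr]; ring
      set e : F.O := ⟨_, ValuationSubring.nonunits_subset hpos⟩ with he
      have h3 : F.st e = 0 := (F.st_zero e).2 hpos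
      have h4 : (g' : F.O) = ⟨r, hr⟩ * (g : F.O) * e := Subtype.ext h1
      have h5 := congrArg F.st h4
      rw [map_mul, h3, mul_zero] at h5
      exact (((g'.isUnit).map F.st).ne_zero) h5
  have hf : Function.Bijective f := by
    constructor
    · rintro ⟨⟨C, hC⟩, q₀, hq₀⟩ ⟨⟨C', hC'⟩, q₀', hq₀'⟩ heq
      have h1 : (fun i => F.eps (Y C i) * (q C q₀ i : F.K)) =
          fun i => F.eps (Y C' i) * (q C' q₀' i : F.K) := congrArg Subtype.val heq
      have h2 : C = C' := by
        ext v
        rw [hkey C (Y C) (hY C hC) (q C q₀)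
            (fun i => by rw [(hq C hC q₀ hq₀).1 i]; exact hq₀.1 i) v,
          hkey C' (Y C') (hY C' hC') (q C' q₀')
            (fun i => by rw [(hq C' hC' q₀' hq₀').1 i]; exact hq₀'.1 i) v]
        have h3 : ∀ i, F.eps (Y C i) * (q C q₀ i : F.K) = F.eps (Y C' i) * (q C' q₀' i : F.K) :=
          fun i => congrFun h1 i
        simp only [h3]
      subst h2
      have h3 : q C q₀ = q C q₀' := by
        funext i
        have h4 := congrFun h1 i
        have heps : F.eps (Y C i) ≠ 0 := by
          intro hr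
          have := F.eps_add (Y C i) (-(Y C i))
          rw [add_neg_cancel, F.eps_zero, hr, zero_mul] at this
          exact one_ne_zero this
        exact Subtype.ext (mul_left_cancel₀ heps h4)
      have h4 : q₀ = q₀' := by
        funext i
        rw [← (hq C hC q₀ hq₀).1 i, h3, (hq C hC q₀' hq₀').1 i]
      subst h4
      rfl
    · rintro ⟨u, hu⟩
      obtain ⟨C, hC, hcell, hCy⟩ := hPTS1 F κ d w h hG hI hh u hu
      have hCm : C ∈ cells := by
        rw [hcells, Finset.mem_filter]
        exact ⟨Finset.mem_univ _, hC, hcell⟩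
      obtain ⟨q₁, hq₁, hqR⟩ := hCy (Y C) (hY C hCm)
      refine ⟨⟨⟨C, hCm⟩, ⟨_, hqR⟩⟩, ?_⟩
      have h5 : q₁ = q C fun i => F.st (q₁ i) :=
        (hq C hCm _ hqR).2.2.2 q₁ (fun _ => rfl) (by
          have : (fun i => F.eps (Y C i) * (q₁ i : F.K)) = u := funext fun i => (hq₁ i).symm
          rw [this]; exact hu)
      apply Subtype.ext
      change (fun i => F.eps (Y C i) * (q C (fun i => F.st (q₁ i)) i : F.K)) = u
      rw [← h5]
      exact funext fun i => (hq₁ i).symm
  have hfin : ∀ C : cells, Finite (Rs w (C : Finset κ)) := fun C =>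
    (hRES κ d w h C hG hh (hmem C C.2).1 (hmem C C.2).2).1
  rw [← Nat.card_eq_of_bijective f hf, Nat.card_sigma]
  unfold Vol
  rw [← Finset.sum_coe_sort cells (fun C => BoxN w C)]
  exact Finset.sum_congr rfl fun C _ =>
    (hRES κ d w h C hG hh (hmem C C.2).1 (hmem C C.2).2).2.1

end Pool.Agent.MonoK
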