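import Pool.Agent.Work.MonodromyK.Interface

/-!
# Assembly: the Euler characteristic of a nondegenerate hypersurface
-/

set_option autoImplicit false

namespace Pool.Agent.MonoK

open MvPolynomial Pool.Agent.Mono

theorem H_of (hSL : Stmt_SL) (hCONST : Stmt_CONST) (hBID : Stmt_BID) (hFUB : Stmt_FUB)
    (hDIM0 : Stmt_DIM0) : Stmt_H := by
  intro E κ _ d
  induction d with
  | zero =>
    intro w c _ _ _
    rw [hDIM0]
    simp [Nn]
  | succ d ih =>
    intro w c hI hN hG
    obtain ⟨hGP, hGF⟩ := hG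
    obtain ⟨hIs, -, -, hNs⟩ := hSL ℂ κ d w c hI hN hGP
    obtain ⟨T, h0, hT, hsum⟩ := hBID ℂ κ d w c hI hN hGP
    have hconst : ∀ s : ℂ, s ≠ 0 → Nn (sl w) (slc w c s) = Nn (sl w) (slc w c 1) := by
      intro s hs
      cases d with
      | zero => rfl
      | succ d => exact hCONST ℂ κ d w c hI hN hGP hGF.1 s 1 hs one_ne_zero
    have hslice : ∀ s : ℂ, s ≠ 0 → ec E (V (sl w) (slc w c s)) =
        (-1) ^ (d + 1) * (Nn (sl w) (slc w c 1) : ℤ) + (-1) ^ (d + 2) *
          (mu (sl w) (slc w c s) : ℤ) := by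
      intro s hs
      rw [ih (sl w) (slc w c s) hIs (hNs s hs) hGF, hconst s hs]
      ring
    rw [hFUB E κ d w c _ _ (fun s => (mu (sl w) (slc w c s) : ℤ)) T h0
      (fun s hs hsT => by simp [hT s hs hsT]) hslice]
    have h1 : ((mu w c : ℤ) + ∑ s ∈ T, (mu (sl w) (slc w c s) : ℤ)) = Nn w c := by
      rw [← hsum]; push_cast; ring
    rw [← h1]
    ring

end Pool.Agent.MonoK
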