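import Pool.Agent.Work.MonodromyK.Interface

/-!
# Assembly: Kouchnirenko's formula for generic coefficients
-/

set_option autoImplicit false

namespace Pool.Agent.MonoK

open MvPolynomial Pool.Agent.Mono

theorem val_empty (E : EulerMeasure) {ι : Type} [Finite ι] : E.val (∅ : Set (ι → ℂ)) = 0 := by
  have hc : Constructible (∅ : Set (ι → ℂ)) := by
    have h1 := Constructible.zero (ι := ι) 1
    have h2 : {x : ι → ℂ | eval x (1 : MvPolynomial ι ℂ) = 0} = ∅ := by
      ext x; simp
    rwa [h2] at h1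
  have h := E.union (∅ : Set (ι → ℂ)) ∅ hc hc (by simp)
  rw [Set.empty_union] at h
  exact left_eq_add.mp h

theorem K_aux (hTRANS : Stmt_TRANS) (hUNI : Stmt_UNI) (hISOG : Stmt_ISOG)
    (hFLAG : Stmt_FLAG) (hBOX1 : Stmt_BOX1) (hBOX2 : Stmt_BOX2)
    (hBARY : Stmt_BARY) (hH : Stmt_H) (hGND : Stmt_GND) (hCOUNT : Stmt_COUNT)
    (E : EulerMeasure) (κ : Type) [Fintype κ] [Nonempty κ] (d : ℕ) (w : κ → Fin (d + 1) → ℤ)
    (a : κ → ℂ) (h : κ → ℝ) (hw : Function.Injective w) (hF : Full w)
    (ha : AlgebraicIndependent ℚ a) (hh : LinearIndependent ℚ h) :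
    ec E (V w a) = (-1) ^ (d + 2) * (Vol w h (d + 1) : ℤ) := by
  classical
  obtain ⟨⟨N, t, hN, hI⟩, -⟩ := hBARY κ (d + 1) w |>.imp (fun f => f hF) id
  obtain ⟨U, U', hU, hU', hG⟩ := hFLAG κ (d + 1) fun v => (fun i => (N : ℤ) * w v i) + t
  have hI2 := (hBARY κ (d + 1) fun v => (fun i => (N : ℤ) * w v i) + t).2 U U' hU hU' hI
  set w1 : κ → Fin (d + 1) → ℤ := fun v => (fun i => (N : ℤ) * w v i) + t with hw1
  set w2 : κ → Fin (d + 1) → ℤ := fun v => Matrix.vecMul (w1 v) U with hw2
  have hinj : Function.Injective w2 := by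
    intro u v huv
    have h1 : Matrix.vecMul (w1 u) U = Matrix.vecMul (w1 v) U := huv
    have h2 : w1 u = w1 v := by
      have := congrArg (fun x => Matrix.vecMul x U') h1
      simpa [Matrix.vecMul_vecMul, hU] using this
    apply hw
    funext i
    have h3 := congrFun h2 i
    simp only [hw1, Pi.add_apply, add_left_inj] at h3
    exact mul_left_cancel₀ (by exact_mod_cast hN) h3
  obtain ⟨hnd, hmu⟩ := hGND ℂ (Fin (d + 1)) κ w2 a ha hI2 inferInstance
  have e1 : ec E (V w2 a) = (-1) ^ (d + 2) * ((Nn w2 a : ℤ) - mu w2 a) :=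
    hH E κ (d + 1) w2 a hI2 hnd hG
  rw [hmu, hCOUNT κ d w2 a h hinj hI2 hG.1 ha hh] at e1
  have e2 : ec E (V w2 a) = N ^ (d + 1) * ec E (V w a) := by
    have h1 : E.val (V w2 a) = E.val (V w1 a) := hUNI E _ _ κ w1 U U' a hU hU'
    have h2 : V w1 a = V (fun v i => (N : ℤ) * w v i) a :=
      hTRANS _ κ (fun v i => (N : ℤ) * w v i) t a
    rw [ec, h1, h2]
    have h3 := hISOG E (Fin (d + 1)) κ w N a hN
    rw [Fintype.card_fin] at h3
    exact h3
  have e3 : Vol w2 h (d + 1) = N ^ (d + 1) * Vol w h (d + 1) := by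
    unfold Vol
    rw [Finset.mul_sum]
    have hcell : ∀ C : Finset κ, C.card = d + 1 + 1 → (IsCell w2 h C ↔ IsCell w h C) := by
      intro C hC
      have b1 := (hBOX1 (Fin (d + 1)) (Fin (d + 1)) Empty κ
        (fun v i => (N : ℤ) * w v i) h C).1 1 1 t (by simp) (by simp)
      have b2 := (hBOX1 (Fin (d + 1)) (Fin (d + 1)) Empty κ w1 h C).1 U U' 0 hU hU'
      have b3 := (hBOX2 κ (d + 1) w h C N hN hh hC).1
      simp only [Matrix.vecMul_one] at b1
      simp only [add_zero] at b2
      rw [← b3, ← b1.2, ← b2.2]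
    have hbox : ∀ C : Finset κ, C.card = d + 1 + 1 → IsCell w h C →
        BoxN w2 C = N ^ (d + 1) * BoxN w C := by
      intro C hC hCc
      have b1 := (hBOX1 (Fin (d + 1)) (Fin (d + 1)) Empty κ
        (fun v i => (N : ℤ) * w v i) h C).1 1 1 t (by simp) (by simp)
      have b2 := (hBOX1 (Fin (d + 1)) (Fin (d + 1)) Empty κ w1 h C).1 U U' 0 hU hU'
      have b3 := (hBOX2 κ (d + 1) w h C N hN hh hC).2 hCc
      simp only [Matrix.vecMul_one] at b1
      simp only [add_zero] at b2
      rw [← b3, ← b1.1, ← b2.1]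
    have hset : (Finset.univ : Finset (Finset κ)).filter
        (fun C => C.card = d + 1 + 1 ∧ IsCell w2 h C) =
        (Finset.univ : Finset (Finset κ)).filter (fun C => C.card = d + 1 + 1 ∧ IsCell w h C) := by
      ext C
      simp only [Finset.mem_filter, Finset.mem_univ, true_and]
      exact ⟨fun hC => ⟨hC.1, (hcell C hC.1).1 hC.2⟩, fun hC => ⟨hC.1, (hcell C hC.1).2 hC.2⟩⟩
    rw [hset]
    refine Finset.sum_congr rfl fun C hC => ?_
    simp only [Finset.mem_filter, Finset.mem_univ, true_and] at hC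
    exact hbox C hC.1 hC.2
  rw [e2, e3] at e1
  have hN' : ((N : ℤ) ^ (d + 1)) ≠ 0 := pow_ne_zero _ (by exact_mod_cast hN)
  apply mul_left_cancel₀ hN'
  rw [e1]
  push_cast
  ring

theorem K_of (hTRANS : Stmt_TRANS) (hUNI : Stmt_UNI) (hISOG : Stmt_ISOG) (hPROD : Stmt_PROD)
    (hFLAG : Stmt_FLAG) (hADAPT : Stmt_ADAPT) (hBOX1 : Stmt_BOX1) (hBOX2 : Stmt_BOX2)
    (hBARY : Stmt_BARY) (hCONV : Stmt_CONV) (hH : Stmt_H) (hGND : Stmt_GND)
    (hCOUNT : Stmt_COUNT) : Stmt_K := by
  classical
  intro E ι κ _ _ _ w a h d hw ha hh hd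
  refine ⟨(hCONV E ι κ w a).1, ?_, ?_⟩
  · rintro rfl
    -- all points coincide
    have h1 : vectorSpan ℚ (Set.range fun v i => (w v i : ℚ)) = ⊥ :=
      Submodule.finrank_eq_zero.1 hd.symm
    have h2 : ∀ u v : κ, u = v := by
      intro u v
      apply hw
      have h3 : (fun i => (w u i : ℚ)) - (fun i => (w v i : ℚ)) ∈
          vectorSpan ℚ (Set.range fun v i => (w v i : ℚ)) :=
        vsub_mem_vectorSpan ℚ ⟨u, rfl⟩ ⟨v, rfl⟩
      rw [h1, Submodule.mem_bot] at h3
      funext i
      have h4 := congrFun h3 i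
      simp only [Pi.sub_apply, Pi.zero_apply, sub_eq_zero] at h4
      exact_mod_cast h4
    have : Subsingleton κ := ⟨h2⟩
    obtain ⟨v₀⟩ := (inferInstance : Nonempty κ)
    letI : Unique κ := { default := v₀, uniq := fun v => h2 v v₀ }
    have h5 : {x : ι → ℂ | (∀ i, x i ≠ 0) ∧ ∑ v, a v * ∏ i, x i ^ w v i = 0} = ∅ := by
      ext x
      simp only [Set.mem_ofPred_eq, Set.mem_empty_iff_false, iff_false, not_and]
      intro hx
      rw [Fintype.sum_unique]
      exact mul_ne_zero (ha.ne_zero _) (Finset.prod_ne_zero_iff.2 fun i _ => zpow_ne_zero _ (hx i))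
    rw [h5]
    exact val_empty E
  · intro hd1
    obtain ⟨d', r, U, U', t, w', hU, hU', hfull, hvm, hd'⟩ := hADAPT ι κ w
    have hdd : d' = d := hd'.trans hd.symm
    subst hdd
    have hcard : Fintype.card ι = d' + r := by
      have h1 : (Matrix.toLin' (U.map (Int.castRingHom ℚ))).comp
          (Matrix.toLin' (U'.map (Int.castRingHom ℚ))) = LinearMap.id := by
        rw [← Matrix.toLin'_mul, ← Matrix.map_mul, hU]
        simp
      have h2 : (Matrix.toLin' (U'.map (Int.castRingHom ℚ))).comp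
          (Matrix.toLin' (U.map (Int.castRingHom ℚ))) = LinearMap.id := by
        rw [← Matrix.toLin'_mul, ← Matrix.map_mul, hU']
        simp
      have h3 := (LinearEquiv.ofLinearMap _ _ h1 h2).finrank_eq
      simpa using h3.symm
    refine ⟨by omega, E.val (V w' a), ?_, ?_⟩
    · rw [(hCONV E ι κ w a).2, ← hUNI E ι (Fin d' ⊕ Fin r) κ w U U' a hU hU']
      have h1 : (fun v => Matrix.vecMul (w v) U) = fun v => Sum.elim (w' v) 0 + t := funext hvm
      rw [h1, hTRANS _ κ (fun v => Sum.elim (w' v) 0) t a,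
        hPROD E (Fin d') (Fin r) κ (fun v => Sum.elim (w' v) 0) a (fun v r => rfl)]
      rw [Fintype.card_fin, hcard, Nat.add_sub_cancel_left]
      rfl
    · obtain ⟨d, rfl⟩ := Nat.exists_eq_add_of_le' hd1
      have hw' : Function.Injective w' := by
        intro u v huv
        apply hw
        have h1 : Matrix.vecMul (w u) U = Matrix.vecMul (w v) U := by rw [hvm, hvm, huv]
        have := congrArg (fun x => Matrix.vecMul x U') h1
        simpa [Matrix.vecMul_vecMul, hU] using this
      have h1 := K_aux hTRANS hUNI hISOG hFLAG hBOX1 hBOX2 hBARY hH hGND hCOUNT E κ d w' a h hw'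
        hfull ha hh
      have h2 : Vol w' h (d + 1) = Vol w h (d + 1) := by
        unfold Vol
        have hb : ∀ C : Finset κ, BoxN w' C = BoxN w C ∧ (IsCell w' h C ↔ IsCell w h C) := by
          intro C
          have b1 := (hBOX1 ι (Fin (d + 1) ⊕ Fin r) (Fin r) κ w h C).1 U U' 0 hU hU'
          have b2 := (hBOX1 (Fin (d + 1)) (Fin (d + 1)) (Fin r) κ w' h C).2
          have b3 := (hBOX1 (Fin (d + 1) ⊕ Fin r) (Fin (d + 1) ⊕ Fin r) Empty κ
            (fun v => Sum.elim (w' v) 0) h C).1 1 1 t (by simp) (by simp)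
          simp only [add_zero] at b1
          simp only [Matrix.vecMul_one] at b3
          have h3 : (fun v => Matrix.vecMul (w v) U) = fun v => Sum.elim (w' v) 0 + t := funext hvm
          rw [h3] at b1
          exact ⟨by rw [← b1.1, b3.1, b2.1], by rw [← b1.2, b3.2, b2.2]⟩
        have hset : (Finset.univ : Finset (Finset κ)).filter
            (fun C => C.card = d + 1 + 1 ∧ IsCell w' h C) =
            (Finset.univ : Finset (Finset κ)).filter
              (fun C => C.card = d + 1 + 1 ∧ IsCell w h C) := by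
          ext C
          simp only [Finset.mem_filter, Finset.mem_univ, true_and, (hb C).2]
        rw [hset]
        exact Finset.sum_congr rfl fun C _ => (hb C).1
      rw [h2] at h1
      exact h1

end Pool.Agent.MonoK
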