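import Pool.Agent.Work.Monodromy.Defs12

/-!
# Kouchnirenko's formula for the Euler characteristic of a generic hypersurface (definitions)

Phase 12, block C2 (helper61).  `BLUEPRINTK.md` contains the proofs.
-/

set_option autoImplicit false

namespace Pool.Agent.MonoK

open MvPolynomial Pool.Agent.Mono

/-- the polynomial ring in variables `x_i` (`Sum.inl i`) and `y_i = x_i⁻¹` (`Sum.inr i`) -/
abbrev PR (R : Type) [CommRing R] (ι : Type) := MvPolynomial (ι ⊕ ι) R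

section Basic

variable (R : Type) [CommRing R] {ι κ τ : Type} [Fintype ι] [Fintype κ]

/-- the monomial `x^m`, `m ∈ ℤ^ι` -/
noncomputable def mon (m : ι → ℤ) : PR R ι :=
  ∏ i, (X (Sum.inl i) ^ (m i).toNat * X (Sum.inr i) ^ (-m i).toNat)

variable {R}

/-- `∑_v c_v x^{w_v}` -/
noncomputable def lau (w : κ → ι → ℤ) (c : κ → R) : PR R ι := ∑ v, C (c v) * mon R (w v)

/-- the ideal generated by `x_i y_i - 1` and the `f_j` -/
noncomputable def TI (f : τ → PR R ι) : Ideal (PR R ι) :=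
  Ideal.span (Set.range (fun i : ι => (X (Sum.inl i) * X (Sum.inr i) - 1 : PR R ι)) ∪ Set.range f)

/-- the coefficients of `θ_i g`, `θ_i = x_i ∂/∂x_i` -/
def th (w : κ → ι → ℤ) (i : ι) (c : κ → R) : κ → R := fun v => (w v i : R) * c v

/-- `θ_1 g, …, θ_n g` (all variables) -/
noncomputable def crit (w : κ → ι → ℤ) (c : κ → R) : ι → PR R ι := fun i => lau w (th w i c)

/-- `θ_1 g, …, θ_d g` (all variables except for the last one) -/
noncomputable def pol {d : ℕ} (w : κ → Fin (d + 1) → ℤ) (c : κ → R) :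
    Fin d → PR R (Fin (d + 1)) := fun j => lau w (th w j.castSucc c)

/-- the support of a slice `x_last = s` -/
def sl {d : ℕ} (w : κ → Fin (d + 1) → ℤ) : κ → Fin d → ℤ := fun v i => w v i.castSucc

end Basic

section Field

variable {k : Type} [Field k] {ι κ τ : Type} [Fintype ι] [Fintype κ]

/-- the coefficients of the slice `x_last = s` -/
noncomputable def slc {d : ℕ} (w : κ → Fin (d + 1) → ℤ) (c : κ → k) (s : k) : κ → k :=
  fun v => c v * s ^ w v (Fin.last d)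

/-- multiplication by the class of `g` on the quotient by an ideal -/
noncomputable def qmul (I : Ideal (PR k ι)) (g : PR k ι) :
    Module.End k (PR k ι ⧸ I) := LinearMap.mulLeft k (Ideal.Quotient.mk I g)

/-- the multiplicity `μ(g)`: the dimension of the `g`-nilpotent part of `A/(θ_1 g, …, θ_n g)` -/
noncomputable def mu (w : κ → ι → ℤ) (c : κ → k) : ℕ :=
  Module.finrank k ((qmul (TI (crit w c)) (lau w c)).maxGenEigenspace 0)

/-- `N(g) = dim A/(θ_1 g, …, θ_{d-1} g, g)`, zero for `d = 0` -/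
noncomputable def Nn : {d : ℕ} → (κ → Fin d → ℤ) → (κ → k) → ℕ
  | 0, _, _ => 0
  | _ + 1, w, c => Module.finrank k (PR k _ ⧸ TI (Sum.elim (pol w c) fun _ : Unit => lau w c))

/-- the value of `∑_{v ∈ F} c_v ℓ_v u^{w_v}` -/
noncomputable def sumF (w : κ → ι → ℤ) (F : Finset κ) (c : κ → k) (u : ι → k) : k :=
  ∑ v ∈ F, c v * ∏ i, u i ^ w v i

end Field

section Comb

variable {ι κ : Type} [Fintype ι] [Fintype κ]

/-- a (combinatorial) face of the family `w` -/
def Ext (w : κ → ι → ℤ) (F : Finset κ) : Prop :=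
  F.Nonempty ∧ ∀ n m : κ → ℕ, (∀ v, m v ≠ 0 → v ∈ F) →
    (∀ i, ∑ v, (n v : ℤ) * w v i = ∑ v, (m v : ℤ) * w v i) → ∑ v, n v = ∑ v, m v →
      ∀ v, n v ≠ 0 → v ∈ F

/-- `0` is in the interior of the convex hull of the `w_v` -/
def INT (w : κ → ι → ℤ) : Prop :=
  ∃ n : κ → ℕ, (∀ i, ∑ v, (n v : ℤ) * w v i = 0) ∧
    ∀ α : ι → ℚ, (∀ v, n v ≠ 0 → ∑ i, α i * w v i = 0) → α = 0

/-- the `w_v` span the whole space as an affine space -/
def Full (w : κ → ι → ℤ) : Prop :=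
  ∀ (α : ι → ℚ) (β : ℚ), (∀ v, ∑ i, α i * w v i = β) → α = 0

/-- nondegenerate at all proper faces -/
def ND (k : Type) [Field k] (w : κ → ι → ℤ) (c : κ → k) : Prop :=
  ∀ (K : Type) [Field K] [Algebra k K] (F : Finset κ), Ext w F → F ≠ Finset.univ →
    ∀ u : ι → K, (∀ i, u i ≠ 0) →
      (∀ i, sumF w F (fun v => algebraMap k K (c v) * w v i) u = 0) → False

/-- the last coordinate direction is not parallel to a proper affine span of points -/
def GP {d : ℕ} (w : κ → Fin (d + 1) → ℤ) : Prop :=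
  ∀ F : Finset κ, F.Nonempty →
    (∃ (α : Fin (d + 1) → ℚ) (β : ℚ), α ≠ 0 ∧ ∀ v ∈ F, ∑ i, α i * w v i = β) →
      ∃ (α : Fin (d + 1) → ℚ) (β : ℚ), α (Fin.last d) ≠ 0 ∧ ∀ v ∈ F, ∑ i, α i * w v i = β

/-- `GP` for all iterated projections -/
def GPF : {d : ℕ} → (κ → Fin d → ℤ) → Prop
  | 0, _ => True
  | _ + 1, w => GP w ∧ GPF (sl w)

/-- the number of `b ∈ [0,1)^C` rational with `∑ b_v w_v` and `∑ b_v` integral -/
noncomputable def BoxN (w : κ → ι → ℤ) (C : Finset κ) : ℕ :=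
  Nat.card {b : κ → ℚ // (∀ v, 0 ≤ b v ∧ b v < 1) ∧ (∀ v, v ∉ C → b v = 0) ∧
    (∀ i, ∃ z : ℤ, ∑ v, b v * w v i = z) ∧ ∃ z : ℤ, ∑ v, b v = z}

/-- `C` is the set of the `v` with minimal `y·w_v + h_v`, for some `y` -/
def IsCell (w : κ → ι → ℤ) (h : κ → ℝ) (C : Finset κ) : Prop :=
  ∃ y : ι → ℝ, ∀ v, v ∈ C ↔ ∀ v', ∑ i, y i * w v i + h v ≤ ∑ i, y i * w v' i + h v'

open Classical in
/-- the volume: the sum of `BoxN` over the cells with `D + 1` elements -/
noncomputable def Vol (w : κ → ι → ℤ) (h : κ → ℝ) (D : ℕ) : ℕ :=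
  ∑ C ∈ (Finset.univ : Finset (Finset κ)).filter (fun C => C.card = D + 1 ∧ IsCell w h C), BoxN w C

end Comb

section Sets

variable {ι κ : Type} [Fintype ι] [Fintype κ]

/-- the hypersurface `∑ c_v x^{w_v} = 0` in `(ℂ^*)^ι`, embedded by `x ↦ (x, x⁻¹)` -/
def V (w : κ → ι → ℤ) (c : κ → ℂ) : Set (ι ⊕ ι → ℂ) :=
  {z | (∀ i, z (Sum.inl i) * z (Sum.inr i) = 1) ∧ eval z (lau w c) = 0}

/-- the Euler characteristic -/
noncomputable def ec (E : EulerMeasure) {ι : Type} [Finite ι] (s : Set (ι → ℂ)) : ℤ :=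
  (E.val s).eval 1

end Sets

end Pool.Agent.MonoK
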