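import Pool.Agent.Work.MonodromyK.Defs

/-!
# Kouchnirenko's formula: the blocks (exact statements)

Every `Stmt_X` is a block; `BLUEPRINTK.md` contains the proofs.
-/

set_option autoImplicit false

namespace Pool.Agent.MonoK

open MvPolynomial Pool.Agent.Mono

/-! ## A. Commutative algebra -/

/-- A1. Cohen-Macaulay property of the polynomial ring -/
def Stmt_CM : Prop :=
  ∀ (k σ : Type) [Field k] [IsAlgClosed k] [Fintype σ] (f : σ → MvPolynomial σ k) (i₀ : σ),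
    Module.Finite k (MvPolynomial σ k ⧸ Ideal.span (Set.range f)) →
      ∀ b, f i₀ * b ∈ Ideal.span (f '' {i | i ≠ i₀}) → b ∈ Ideal.span (f '' {i | i ≠ i₀})

/-- A2. Criterion for finiteness -/
def Stmt_FIN1 : Prop :=
  ∀ (R C ι : Type) [CommRing R] [CommRing C] [IsNoetherianRing C] [Algebra R C] [Finite ι]
    (x y : ι → C), (∀ i, x i * y i = 1) →
    Algebra.adjoin R (Set.range x ∪ Set.range y) = ⊤ →
    (∀ (K : Type) [Field K] (O : ValuationSubring K) (φ : C →+* K),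
      (∀ r, φ (algebraMap R C r) ∈ O) → ∀ i, φ (x i) ∈ O ∧ φ (y i) ∈ O) →
    Module.Finite R C

/-- A3. Solutions of a system which are not integral give solutions at a face -/
def Stmt_FIN2 : Prop :=
  ∀ (K ι κ τ : Type) [Field K] [Fintype ι] [Fintype κ] (O : ValuationSubring K)
    (w : κ → ι → ℤ) (l : τ → κ → ℤ) (c : κ → O) (x : ι → K), INT w → (∀ i, x i ≠ 0) →
    (∀ j, ∑ v, (l j v : K) * c v * ∏ i, x i ^ w v i ∈ O) →
    (∃ i, ¬ (x i ∈ O ∧ (x i)⁻¹ ∈ O)) →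
    ∃ F : Finset κ, Ext w F ∧ F ≠ Finset.univ ∧
      ∃ u : ι → AlgebraicClosure (IsLocalRing.ResidueField O), (∀ i, u i ≠ 0) ∧
        ∀ j, sumF w F (fun v => (l j v : AlgebraicClosure (IsLocalRing.ResidueField O)) *
          algebraMap _ _ (IsLocalRing.residue O (c v))) u = 0

/-- A4. Simultaneous triangularisation: points with multiplicities -/
def Stmt_MULT : Prop :=
  ∀ (K B Ω : Type) [Field K] [CommRing B] [Algebra K B] [Module.Finite K B] [Field Ω]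
    [IsAlgClosed Ω] [Algebra K Ω],
    ∃ p : Fin (Module.finrank K B) → (B →ₐ[K] Ω),
      ∀ b : B, algebraMap K Ω (Algebra.norm K b) = ∏ j, p j b

/-- A5. The logarithmic derivative of an algebraic function -/
def Stmt_LD : Prop :=
  ∀ (k L : Type) [Field k] [IsAlgClosed k] [CharZero k] [Field L] [Algebra k L]
    [Algebra (Polynomial k) L] [IsScalarTower k (Polynomial k) L]
    [Algebra.IsAlgebraic (Polynomial k) L] [FaithfulSMul (Polynomial k) L]
    (O : ValuationSubring L) (D : Derivation k L L),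
    D (algebraMap (Polynomial k) L Polynomial.X) = 1 →
    (∀ f, algebraMap (Polynomial k) L f ∈ O) →
    algebraMap (Polynomial k) L Polynomial.X ∈ O.nonunits →
    ∀ y ∈ O.nonunits, y ≠ 0 →
      O.valuation (algebraMap (Polynomial k) L Polynomial.X * D y) = O.valuation y

/-- A6. Teissier's identity (abstract form) -/
def Stmt_TEIS : Prop :=
  ∀ (k B : Type) [Field k] [IsAlgClosed k] [CharZero k] [CommRing B] [Algebra (Polynomial k) B]
    [Module.Finite (Polynomial k) B] [Module.Free (Polynomial k) B] (s ϑ : B), IsUnit s →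
    (∀ (L : Type) [Field L] [Algebra k L] [Algebra (Polynomial k) L]
      [IsScalarTower k (Polynomial k) L] (D : Derivation k L L),
      D (algebraMap (Polynomial k) L Polynomial.X) = 1 →
        ∀ p : B →ₐ[Polynomial k] L, p ϑ * D (p s) = p s) →
    ∃ T : Finset k, ∀ T' : Finset k, T ⊆ T' →
      (Algebra.norm (Polynomial k) ϑ * ∏ c ∈ T', Algebra.norm (Polynomial k)
        (s - algebraMap (Polynomial k) B (Polynomial.C c))).rootMultiplicity 0 =
          Module.finrank (Polynomial k) B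

/-- A7. Norms and quotients -/
def Stmt_LEN : Prop :=
  ∀ (k B : Type) [Field k] [CommRing B] [Algebra (Polynomial k) B] [Algebra k B]
    [IsScalarTower k (Polynomial k) B] [Module.Finite (Polynomial k) B]
    [Module.Free (Polynomial k) B] (b : B), Algebra.norm (Polynomial k) b ≠ 0 →
    Module.Finite k (B ⧸ Ideal.span {b}) ∧
    Module.finrank k (B ⧸ Ideal.span {b}) = (Algebra.norm (Polynomial k) b).natDegree ∧
    Module.finrank k (Module.End.maxGenEigenspace (LinearMap.mulLeft k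
      (Ideal.Quotient.mk (Ideal.span {b}) (algebraMap (Polynomial k) B Polynomial.X))) 0) =
        (Algebra.norm (Polynomial k) b).rootMultiplicity 0

/-! ## B. The class of hypersurfaces -/

/-- B1. The class is closed under slices -/
def Stmt_SL : Prop :=
  ∀ (k κ : Type) [Field k] [CharZero k] [Fintype κ] (d : ℕ) (w : κ → Fin (d + 1) → ℤ) (c : κ → k),
    INT w → ND k w c → GP w →
    INT (sl w) ∧
    (∀ (K : Type) [Field K] [Algebra k K] (F : Finset κ), Ext (sl w) F → F ≠ Finset.univ →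
      ∀ u : Fin (d + 1) → K, (∀ i, u i ≠ 0) → (∀ j : Fin d, sumF w F
        (fun v => algebraMap k K (c v) * w v j.castSucc) u = 0) → False) ∧
    (∀ (K : Type) [Field K] [Algebra k K] (F : Finset κ), Ext w F → F ≠ Finset.univ →
      ∀ u : Fin (d + 1) → K, (∀ i, u i ≠ 0) → (∀ j : Fin d, sumF w F
        (fun v => algebraMap k K (c v) * w v j.castSucc) u = 0) →
        sumF w F (fun v => algebraMap k K (c v)) u = 0 → False) ∧
    ∀ s : k, s ≠ 0 → ND k (sl w) (slc w c s)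

/-- B2. `A/(θ_1 g, …, θ_d g)` is free of finite rank over `k[z]`, `z = g` -/
def Stmt_FREEB : Prop :=
  ∀ (k κ : Type) [Field k] [IsAlgClosed k] [CharZero k] [Fintype κ] (d : ℕ)
    (w : κ → Fin (d + 1) → ℤ) (c : κ → k), INT w → ND k w c → GP w →
    letI : Algebra (Polynomial k) (PR k (Fin (d + 1)) ⧸ TI (pol w c)) :=
      (Polynomial.aeval (Ideal.Quotient.mk (TI (pol w c)) (lau w c))).toRingHom.toAlgebra
    Module.Finite (Polynomial k) (PR k (Fin (d + 1)) ⧸ TI (pol w c)) ∧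
      Module.Free (Polynomial k) (PR k (Fin (d + 1)) ⧸ TI (pol w c))

/-- B3. `A/(θ_1 g, …, θ_d g, g)` is finite-dimensional -/
def Stmt_FINN : Prop :=
  ∀ (k κ : Type) [Field k] [IsAlgClosed k] [CharZero k] [Fintype κ] (d : ℕ)
    (w : κ → Fin (d + 1) → ℤ) (c : κ → k), INT w → ND k w c → GP w →
    Module.Finite k (PR k (Fin (d + 1)) ⧸ TI (Sum.elim (pol w c) fun _ : Unit => lau w c))

/-- B4. Quotients of slices -/
def Stmt_ISO : Prop :=
  ∀ (k κ τ : Type) [Field k] [Fintype κ] (d : ℕ) (w : κ → Fin (d + 1) → ℤ)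
    (L : τ → κ → k) (s : k), s ≠ 0 →
    ∃ e : (PR k (Fin (d + 1)) ⧸ (TI (fun j => lau w (L j)) ⊔
        Ideal.span {X (Sum.inl (Fin.last d)) - C s})) ≃ₐ[k]
        (PR k (Fin d) ⧸ TI (fun j => lau (sl w) (slc w (L j) s))),
      ∀ c : κ → k, e (Ideal.Quotient.mk _ (lau w c)) =
        Ideal.Quotient.mk _ (lau (sl w) (slc w c s))

/-- B5. `N` is constant on slices -/
def Stmt_CONST : Prop :=
  ∀ (k κ : Type) [Field k] [IsAlgClosed k] [CharZero k] [Fintype κ] (d : ℕ)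
    (w : κ → Fin (d + 2) → ℤ) (c : κ → k), INT w → ND k w c → GP w → GP (sl w) →
    ∀ s t : k, s ≠ 0 → t ≠ 0 → Nn (sl w) (slc w c s) = Nn (sl w) (slc w c t)

/-- B6. Teissier's identity for slices -/
def Stmt_BID : Prop :=
  ∀ (k κ : Type) [Field k] [IsAlgClosed k] [CharZero k] [Fintype κ] (d : ℕ)
    (w : κ → Fin (d + 1) → ℤ) (c : κ → k), INT w → ND k w c → GP w →
    ∃ T : Finset k, 0 ∉ T ∧ (∀ s, s ≠ 0 → s ∉ T → mu (sl w) (slc w c s) = 0) ∧
      mu w c + ∑ s ∈ T, mu (sl w) (slc w c s) = Nn w c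

/-! ## C. Euler characteristics -/

/-- C1. Fubini for the slices -/
def Stmt_FUB : Prop :=
  ∀ (E : EulerMeasure) (κ : Type) [Fintype κ] (d : ℕ) (w : κ → Fin (d + 1) → ℤ) (c : κ → ℂ)
    (α ε : ℤ) (m : ℂ → ℤ) (T : Finset ℂ), 0 ∉ T → (∀ s, s ≠ 0 → s ∉ T → m s = 0) →
    (∀ s, s ≠ 0 → ec E (V (sl w) (slc w c s)) = α + ε * m s) →
      ec E (V w c) = ε * ∑ s ∈ T, m s

/-- C2. dimension zero -/
def Stmt_DIM0 : Prop :=
  ∀ (E : EulerMeasure) (κ : Type) [Fintype κ] (w : κ → Fin 0 → ℤ) (c : κ → ℂ),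
    ec E (V w c) = mu w c

/-- C3. The Euler characteristic of a nondegenerate hypersurface -/
def Stmt_H : Prop :=
  ∀ (E : EulerMeasure) (κ : Type) [Fintype κ] (d : ℕ) (w : κ → Fin d → ℤ) (c : κ → ℂ),
    INT w → ND ℂ w c → GPF w → ec E (V w c) = (-1) ^ (d + 1) * ((Nn w c : ℤ) - mu w c)

/-! ## D. Generic coefficients -/

/-- D1. No singular points at all subsets -/
def Stmt_GN : Prop :=
  ∀ (K ι κ : Type) [Field K] [CharZero K] [Fintype ι] [Fintype κ] (w : κ → ι → ℤ) (a : κ → K),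
    AlgebraicIndependent ℚ a → ∀ F : Finset κ, F.Nonempty → ∀ u : ι → K, (∀ i, u i ≠ 0) →
      sumF w F a u = 0 → (∀ i, sumF w F (fun v => a v * w v i) u = 0) → False

/-- D2. Generic hypersurfaces are in the class -/
def Stmt_GND : Prop :=
  ∀ (k ι κ : Type) [Field k] [IsAlgClosed k] [CharZero k] [Fintype ι] [Fintype κ]
    (w : κ → ι → ℤ) (a : κ → k),
    AlgebraicIndependent ℚ a → INT w → Nonempty κ → ND k w a ∧ mu w a = 0

/-- D3. The count -/
def Stmt_COUNT : Prop :=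
  ∀ (κ : Type) [Fintype κ] (d : ℕ) (w : κ → Fin (d + 1) → ℤ) (a : κ → ℂ) (h : κ → ℝ),
    Function.Injective w → INT w → GP w → AlgebraicIndependent ℚ a → LinearIndependent ℚ h →
      Nn w a = Vol w h (d + 1)

/-! ### The count -/

/-- A valued field with residue field `ℂ`, real powers of an infinitesimal and Hensel's lemma -/
structure VF where
  K : Type
  [field : Field K]
  [ac : IsAlgClosed K]
  [char0 : CharZero K]
  O : ValuationSubring K
  st : O →+* ℂ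
  st_surj : Function.Surjective st
  st_zero : ∀ x : O, st x = 0 ↔ (x : K) ∈ O.nonunits
  eps : ℝ → K
  eps_zero : eps 0 = 1
  eps_add : ∀ r s, eps (r + s) = eps r * eps s
  eps_pos : ∀ r, 0 < r → eps r ∈ O.nonunits
  hensel : ∀ (n : ℕ) (f : Fin n → MvPolynomial (Fin n) O) (q : Fin n → ℂ),
    (∀ j, eval q (map st (f j)) = 0) →
    (Matrix.of fun j i => eval q (pderiv i (map st (f j)))).det ≠ 0 →
      ∃ y : Fin n → O, (∀ j, eval y (f j) = 0) ∧ ∀ i, st (y i) = q i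

attribute [instance] VF.field VF.ac VF.char0

/-- the linear forms of the system `θ_1 g = ⋯ = θ_d g = g = 0` -/
def lf {κ : Type} {d : ℕ} (w : κ → Fin (d + 1) → ℤ) (j : Fin (d + 1)) (v : κ) : ℤ :=
  Fin.lastCases (motive := fun _ => ℤ) 1 (fun i => w v i.castSucc) j

/-- the solutions of the system `θ_1 g = ⋯ = θ_d g = g = 0` in the torus -/
def Pt {K κ : Type} [Field K] [Fintype κ] {d : ℕ} (w : κ → Fin (d + 1) → ℤ) (a : κ → K) :
    Set (Fin (d + 1) → K) :=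
  {u | (∀ i, u i ≠ 0) ∧ ∀ j, ∑ v, (lf w j v : K) * a v * ∏ i, u i ^ w v i = 0}

/-- the logarithmic Jacobian matrix -/
def Jm {K κ : Type} [Field K] [Fintype κ] {d : ℕ} (w : κ → Fin (d + 1) → ℤ) (a : κ → K)
    (u : Fin (d + 1) → K) : Matrix (Fin (d + 1)) (Fin (d + 1)) K :=
  Matrix.of fun j i => ∑ v, (lf w j v : K) * a v * w v i * ∏ i, u i ^ w v i

/-- the solutions of the residue system of a cell -/
def Rs {κ : Type} [Fintype κ] {d : ℕ} (w : κ → Fin (d + 1) → ℤ) (C : Finset κ) :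
    Set (Fin (d + 1) → ℂ) :=
  {q | (∀ i, q i ≠ 0) ∧ ∀ j, ∑ v ∈ C, (lf w j v : ℂ) * ∏ i, q i ^ w v i = 0}

/-- D4. existence of the valued field (germs of sequences of complex numbers) -/
def Stmt_VF : Prop := Nonempty VF

/-- D5. uniqueness in Hensel's lemma -/
def Stmt_UNIQ : Prop :=
  ∀ (O : Type) [CommRing O] [IsDomain O] [ValuationRing O] (n : ℕ)
    (f : Fin n → MvPolynomial (Fin n) O) (y y' : Fin n → O), (∀ j, eval y (f j) = 0) →
    (∀ j, eval y' (f j) = 0) → (∀ i, ¬ IsUnit (y' i - y i)) →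
    IsUnit (Matrix.of fun j i => eval y (pderiv i (f j))).det → y = y'

/-- D6. simple systems -/
def Stmt_SIMP : Prop :=
  ∀ (K κ : Type) [Field K] [IsAlgClosed K] [Fintype κ] (d : ℕ) (w : κ → Fin (d + 1) → ℤ)
    (a : κ → K), Module.Finite K
      (PR K (Fin (d + 1)) ⧸ TI (Sum.elim (pol w a) fun _ : Unit => lau w a)) →
    (∀ u ∈ Pt w a, (Jm w a u).det ≠ 0) → Nn w a = Nat.card (Pt w a)

/-- D7. base change -/
def Stmt_BC : Prop :=
  ∀ (K₁ K₂ κ : Type) [Field K₁] [CharZero K₁] [Field K₂] [CharZero K₂] [Fintype κ] (d : ℕ)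
    (w : κ → Fin d → ℤ) (a₁ : κ → K₁) (a₂ : κ → K₂), AlgebraicIndependent ℚ a₁ →
    AlgebraicIndependent ℚ a₂ → Nn w a₁ = Nn w a₂

/-- D8. independent powers of the infinitesimal -/
def Stmt_EPS : Prop :=
  ∀ (F : VF) (κ : Type) [Fintype κ] (h : κ → ℝ), LinearIndependent ℚ h →
    AlgebraicIndependent ℚ fun v => F.eps (h v)

/-- D9. the residue system of a cell -/
def Stmt_RES : Prop :=
  ∀ (κ : Type) [Fintype κ] (d : ℕ) (w : κ → Fin (d + 1) → ℤ) (h : κ → ℝ) (C : Finset κ),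
    GP w → LinearIndependent ℚ h → C.card = d + 2 → IsCell w h C →
    (Rs w C).Finite ∧ Nat.card (Rs w C) = BoxN w C ∧
    ∀ q ∈ Rs w C, (Matrix.of fun j i => ∑ v ∈ C, (lf w j v : ℂ) * w v i * ∏ i, q i ^ w v i :
      Matrix (Fin (d + 1)) (Fin (d + 1)) ℂ).det ≠ 0

/-- D10. every solution is near a cell -/
def Stmt_PTS1 : Prop :=
  ∀ (F : VF) (κ : Type) [Fintype κ] (d : ℕ) (w : κ → Fin (d + 1) → ℤ) (h : κ → ℝ),
    GP w → INT w → LinearIndependent ℚ h → ∀ u ∈ Pt w (fun v => F.eps (h v)),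
    ∃ C : Finset κ, C.card = d + 2 ∧ IsCell w h C ∧ ∀ y : Fin (d + 1) → ℝ,
      (∀ v, v ∈ C ↔ ∀ v', ∑ i, y i * w v i + h v ≤ ∑ i, y i * w v' i + h v') →
      ∃ q : Fin (d + 1) → F.O, (∀ i, u i = F.eps (y i) * q i) ∧ (fun i => F.st (q i)) ∈ Rs w C

/-- D11. solutions near a cell -/
def Stmt_PTS2 : Prop :=
  ∀ (F : VF) (κ : Type) [Fintype κ] (d : ℕ) (w : κ → Fin (d + 1) → ℤ) (h : κ → ℝ)
    (C : Finset κ) (y : Fin (d + 1) → ℝ), GP w → LinearIndependent ℚ h → C.card = d + 2 →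
    (∀ v, v ∈ C ↔ ∀ v', ∑ i, y i * w v i + h v ≤ ∑ i, y i * w v' i + h v') →
    ∀ q₀ ∈ Rs w C, ∃ q : Fin (d + 1) → F.O, (∀ i, F.st (q i) = q₀ i) ∧
      (fun i => F.eps (y i) * q i) ∈ Pt w (fun v => F.eps (h v)) ∧
      (Jm w (fun v => F.eps (h v)) (fun i => F.eps (y i) * q i)).det ≠ 0 ∧
      ∀ q' : Fin (d + 1) → F.O, (∀ i, F.st (q' i) = q₀ i) →
        (fun i => F.eps (y i) * q' i) ∈ Pt w (fun v => F.eps (h v)) → q' = q

/-! ## E. Transformations and the final formula -/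

/-- E1. translations -/
def Stmt_TRANS : Prop :=
  ∀ (ι κ : Type) [Fintype ι] [Fintype κ] (w : κ → ι → ℤ) (t : ι → ℤ) (c : κ → ℂ),
    V (fun v => w v + t) c = V w c

/-- E2. unimodular changes of coordinates -/
def Stmt_UNI : Prop :=
  ∀ (E : EulerMeasure) (ι ι' κ : Type) [Fintype ι] [Fintype ι'] [DecidableEq ι] [DecidableEq ι']
    [Fintype κ] (w : κ → ι → ℤ) (U : Matrix ι ι' ℤ) (U' : Matrix ι' ι ℤ) (c : κ → ℂ),
    U * U' = 1 → U' * U = 1 →
      E.val (V (fun v => Matrix.vecMul (w v) U) c) = E.val (V w c)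

/-- E3. the isogeny `x ↦ x^N` -/
def Stmt_ISOG : Prop :=
  ∀ (E : EulerMeasure) (ι κ : Type) [Fintype ι] [Fintype κ] (w : κ → ι → ℤ) (N : ℕ) (c : κ → ℂ),
    N ≠ 0 → ec E (V (fun v i => (N : ℤ) * w v i) c) = N ^ Fintype.card ι * ec E (V w c)

/-- E4. product with a torus -/
def Stmt_PROD : Prop :=
  ∀ (E : EulerMeasure) (ι ρ κ : Type) [Fintype ι] [Fintype ρ] [Fintype κ]
    (w : κ → ι ⊕ ρ → ℤ) (c : κ → ℂ), (∀ v r, w v (Sum.inr r) = 0) →
      E.val (V w c) = (Polynomial.X - 1) ^ Fintype.card ρ * E.val (V (fun v i => w v (Sum.inl i)) c)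

/-- E5. flags: coordinates with `GPF` -/
def Stmt_FLAG : Prop :=
  ∀ (κ : Type) [Fintype κ] (d : ℕ) (w : κ → Fin d → ℤ),
    ∃ U U' : Matrix (Fin d) (Fin d) ℤ, U * U' = 1 ∧ U' * U = 1 ∧
      GPF (fun v => Matrix.vecMul (w v) U)

/-- E6. adapted coordinates: the family spans a `d`-dimensional coordinate space -/
def Stmt_ADAPT : Prop :=
  ∀ (ι κ : Type) [Fintype ι] [DecidableEq ι] [Fintype κ] [Nonempty κ] (w : κ → ι → ℤ),
    ∃ (d r : ℕ) (U : Matrix ι (Fin d ⊕ Fin r) ℤ) (U' : Matrix (Fin d ⊕ Fin r) ι ℤ)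
      (t : Fin d ⊕ Fin r → ℤ) (w' : κ → Fin d → ℤ), U * U' = 1 ∧ U' * U = 1 ∧ Full w' ∧
      (∀ v, Matrix.vecMul (w v) U = Sum.elim (w' v) 0 + t) ∧
      d = Module.finrank ℚ (vectorSpan ℚ (Set.range fun v i => (w v i : ℚ)))

/-- E7. `BoxN` and cells under affine unimodular maps and under adding zero coordinates -/
def Stmt_BOX1 : Prop :=
  ∀ (ι ι' ρ κ : Type) [Fintype ι] [Fintype ι'] [Fintype ρ] [DecidableEq ι] [DecidableEq ι']
    [Fintype κ] (w : κ → ι → ℤ) (h : κ → ℝ) (C : Finset κ),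
    (∀ (U : Matrix ι ι' ℤ) (U' : Matrix ι' ι ℤ) (t : ι' → ℤ), U * U' = 1 → U' * U = 1 →
      BoxN (fun v => Matrix.vecMul (w v) U + t) C = BoxN w C ∧
      (IsCell (fun v => Matrix.vecMul (w v) U + t) h C ↔ IsCell w h C)) ∧
    BoxN (fun v => (Sum.elim (w v) 0 : ι ⊕ ρ → ℤ)) C = BoxN w C ∧
    (IsCell (fun v => (Sum.elim (w v) 0 : ι ⊕ ρ → ℤ)) h C ↔ IsCell w h C)

/-- E8. `BoxN` and cells under multiplication by `N` -/
def Stmt_BOX2 : Prop :=
  ∀ (κ : Type) [Fintype κ] (D : ℕ) (w : κ → Fin D → ℤ) (h : κ → ℝ) (C : Finset κ) (N : ℕ),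
    N ≠ 0 → LinearIndependent ℚ h → C.card = D + 1 →
      (IsCell (fun v i => (N : ℤ) * w v i) h C ↔ IsCell w h C) ∧
      (IsCell w h C → BoxN (fun v i => (N : ℤ) * w v i) C = N ^ D * BoxN w C)

/-- E9. affinely spanning families: the barycentre is an interior point; `INT` is invariant under
unimodular maps -/
def Stmt_BARY : Prop :=
  ∀ (κ : Type) [Fintype κ] [Nonempty κ] (D : ℕ) (w : κ → Fin D → ℤ),
    (Full w → ∃ (N : ℕ) (t : Fin D → ℤ), N ≠ 0 ∧ INT fun v => (fun i => (N : ℤ) * w v i) + t) ∧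
    ∀ U U' : Matrix (Fin D) (Fin D) ℤ, U * U' = 1 → U' * U = 1 → INT w →
      INT fun v => Matrix.vecMul (w v) U

/-- E10. from `ℂ^ι` to the coordinates `(x, x⁻¹)` -/
def Stmt_CONV : Prop :=
  ∀ (E : EulerMeasure) (ι κ : Type) [Fintype ι] [Fintype κ] (w : κ → ι → ℤ) (c : κ → ℂ),
    Constructible {x : ι → ℂ | (∀ i, x i ≠ 0) ∧ ∑ v, c v * ∏ i, x i ^ w v i = 0} ∧
    E.val {x : ι → ℂ | (∀ i, x i ≠ 0) ∧ ∑ v, c v * ∏ i, x i ^ w v i = 0} = E.val (V w c)

/-- the final formula -/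
def Stmt_K : Prop :=
  ∀ (E : EulerMeasure) (ι κ : Type) [Fintype ι] [Fintype κ] [Nonempty κ] (w : κ → ι → ℤ)
    (a : κ → ℂ) (h : κ → ℝ) (d : ℕ), Function.Injective w → AlgebraicIndependent ℚ a →
    LinearIndependent ℚ h →
    d = Module.finrank ℚ (vectorSpan ℚ (Set.range fun v i => (w v i : ℚ))) →
    Constructible {x : ι → ℂ | (∀ i, x i ≠ 0) ∧ ∑ v, a v * ∏ i, x i ^ w v i = 0} ∧
    (d = 0 → E.val {x : ι → ℂ | (∀ i, x i ≠ 0) ∧ ∑ v, a v * ∏ i, x i ^ w v i = 0} = 0) ∧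
    (1 ≤ d → d ≤ Fintype.card ι ∧ ∃ q : Polynomial ℤ,
      E.val {x : ι → ℂ | (∀ i, x i ≠ 0) ∧ ∑ v, a v * ∏ i, x i ^ w v i = 0} =
        (Polynomial.X - 1) ^ (Fintype.card ι - d) * q ∧
      q.eval 1 = (-1) ^ (d + 1) * (Vol w h d : ℤ))

end Pool.Agent.MonoK
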